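import Mathlib

set_option autoImplicit false

open Set Filter Topology

namespace Pool.Agent.Results.MP_f6a885_lc.UrysohnDegrees

/-! ## Roy's lattice space -/

/-- Points of the lattice space: `none` is the point at infinity, `some (q, n)` lies on level `n`. -/
def Roy : Type := Option (ℚ × ℕ)

/-- The point at infinity. -/
def Roy.inf : Roy := (none : Option (ℚ × ℕ))

/-- The lattice point number `q` on level `n`. -/
def Roy.pt (q : ℚ) (n : ℕ) : Roy := (some (q, n) : Option (ℚ × ℕ))

open Roy

instance : Countable Roy := inferInstanceAs (Countable (Option (ℚ × ℕ)))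

lemma pt_ne_inf {q : ℚ} {n : ℕ} : pt q n ≠ inf := Option.some_ne_none _

lemma inf_ne_pt {q : ℚ} {n : ℕ} : inf ≠ pt q n := (Option.some_ne_none _).symm

lemma pt_inj {q q' : ℚ} {n n' : ℕ} (h : pt q n = pt q' n') : q = q' ∧ n = n' := by
  have := Option.some.inj h
  exact ⟨congrArg Prod.fst this, congrArg Prod.snd this⟩

lemma roy_cases (x : Roy) : x = inf ∨ ∃ q n, x = pt q n := by
  match x with
  | none => exact Or.inl rfl
  | some (q, n) => exact Or.inr ⟨q, n, rfl⟩

/-- The real coordinate of a lattice point. -/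
noncomputable def rho (q : ℚ) (n : ℕ) : ℝ := (q : ℝ) + n * √2

lemma rho_inj {q q' : ℚ} {n n' : ℕ} (h : rho q n = rho q' n') : q = q' ∧ n = n' := by
  unfold rho at h
  by_cases hn : n = n'
  · subst hn
    refine ⟨?_, rfl⟩
    have : (q : ℝ) = q' := by linarith
    exact_mod_cast this
  · exfalso
    have hne : ((n : ℝ) - n') ≠ 0 := by
      intro h0
      apply hn
      have : (n : ℝ) = n' := by linarith
      exact_mod_cast this
    have h1 : √2 = ((q' - q : ℚ) : ℝ) / (((n : ℤ) - (n' : ℤ) : ℤ) : ℝ) := by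
      push_cast
      rw [eq_div_iff hne]
      linarith
    have hirr := irrational_sqrt_two
    apply hirr
    refine ⟨(q' - q) / (((n : ℤ) - (n' : ℤ) : ℤ) : ℚ), ?_⟩
    rw [h1]
    push_cast
    rfl

lemma rho_dense (n : ℕ) {a b : ℝ} (h : a < b) : ∃ q : ℚ, a < rho q n ∧ rho q n < b := by
  obtain ⟨q, h1, h2⟩ := exists_rat_btwn (show a - n * √2 < b - n * √2 by linarith)
  exact ⟨q, by unfold rho; linarith, by unfold rho; linarith⟩

/-- Level `m` is visible from level `n`. -/
def Vis (n m : ℕ) : Prop := m = n ∨ (Odd n ∧ (m = n + 1 ∨ m + 1 = n))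

lemma Vis.refl (n : ℕ) : Vis n n := Or.inl rfl

/-- The topology of the lattice space. -/
instance : TopologicalSpace Roy where
  IsOpen U := (∀ q n, pt q n ∈ U → ∃ ε : ℝ, 0 < ε ∧ ∀ q' m, Vis n m →
      |rho q' m - rho q n| < ε → pt q' m ∈ U) ∧
    (inf ∈ U → ∃ N : ℕ, ∀ q m, N ≤ m → pt q m ∈ U)
  isOpen_univ := ⟨fun _ _ _ => ⟨1, one_pos, fun _ _ _ _ => trivial⟩,
    fun _ => ⟨0, fun _ _ _ => trivial⟩⟩
  isOpen_inter := by
    rintro U V ⟨hU1, hU2⟩ ⟨hV1, hV2⟩
    refine ⟨fun q n ⟨h1, h2⟩ => ?_, fun ⟨h1, h2⟩ => ?_⟩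
    · obtain ⟨e, he, hU⟩ := hU1 q n h1
      obtain ⟨e', he', hV⟩ := hV1 q n h2
      refine ⟨min e e', lt_min he he', fun q' m hv hd => ⟨?_, ?_⟩⟩
      · exact hU q' m hv (lt_of_lt_of_le hd (min_le_left _ _))
      · exact hV q' m hv (lt_of_lt_of_le hd (min_le_right _ _))
    · obtain ⟨N, hN⟩ := hU2 h1
      obtain ⟨N', hN'⟩ := hV2 h2
      exact ⟨max N N', fun q m hm => ⟨hN q m (le_trans (le_max_left _ _) hm),
        hN' q m (le_trans (le_max_right _ _) hm)⟩⟩
  isOpen_sUnion := by
    intro S hS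
    refine ⟨fun q n ⟨U, hU, hmem⟩ => ?_, fun ⟨U, hU, hmem⟩ => ?_⟩
    · obtain ⟨e, he, h⟩ := (hS U hU).1 q n hmem
      exact ⟨e, he, fun q' m hv hd => ⟨U, hU, h q' m hv hd⟩⟩
    · obtain ⟨N, hN⟩ := (hS U hU).2 hmem
      exact ⟨N, fun q m hm => ⟨U, hU, hN q m hm⟩⟩

lemma isOpen_iff_roy (U : Set Roy) : IsOpen U ↔
    (∀ q n, pt q n ∈ U → ∃ ε : ℝ, 0 < ε ∧ ∀ q' m, Vis n m →
      |rho q' m - rho q n| < ε → pt q' m ∈ U) ∧
    (inf ∈ U → ∃ N : ℕ, ∀ q m, N ≤ m → pt q m ∈ U) := Iff.rfl

/-- Basic neighbourhood of a lattice point. -/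
def ball (q : ℚ) (n : ℕ) (ε : ℝ) : Set Roy :=
  {x | ∃ q' m, x = pt q' m ∧ Vis n m ∧ |rho q' m - rho q n| < ε}

/-- Basic neighbourhood of the point at infinity. -/
def tail (N : ℕ) : Set Roy := {x | x = inf ∨ ∃ q m, x = pt q m ∧ 2 * N ≤ m}

lemma pt_mem_ball {q q' : ℚ} {n m : ℕ} {ε : ℝ} :
    pt q' m ∈ ball q n ε ↔ Vis n m ∧ |rho q' m - rho q n| < ε := by
  constructor
  · rintro ⟨q'', m', h, h1, h2⟩
    obtain ⟨rfl, rfl⟩ := pt_inj h
    exact ⟨h1, h2⟩
  · rintro ⟨h1, h2⟩
    exact ⟨q', m, rfl, h1, h2⟩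

lemma inf_not_mem_ball {q : ℚ} {n : ℕ} {ε : ℝ} : inf ∉ ball q n ε := by
  rintro ⟨q', m, h, _⟩
  exact inf_ne_pt h

lemma pt_mem_tail {q : ℚ} {m N : ℕ} : pt q m ∈ tail N ↔ 2 * N ≤ m := by
  constructor
  · rintro (h | ⟨q', m', h, h1⟩)
    · exact absurd h pt_ne_inf
    · obtain ⟨rfl, rfl⟩ := pt_inj h
      exact h1
  · intro h
    exact Or.inr ⟨q, m, rfl, h⟩

lemma inf_mem_tail {N : ℕ} : inf ∈ tail N := Or.inl rfl

lemma vis_trans {n m k : ℕ} (h : Vis n m) (h' : Vis m k) : Vis n k := by
  unfold Vis at *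
  rcases h with rfl | ⟨ho, h⟩
  · exact h'
  · rcases h' with rfl | ⟨ho', _⟩
    · exact Or.inr ⟨ho, h⟩
    · exfalso
      rcases ho with ⟨a, ha⟩
      rcases ho' with ⟨b, hb⟩
      omega

lemma isOpen_ball (q : ℚ) (n : ℕ) (ε : ℝ) : IsOpen (ball q n ε) := by
  rw [isOpen_iff_roy]
  refine ⟨fun q' m h => ?_, fun h => absurd h inf_not_mem_ball⟩
  rw [pt_mem_ball] at h
  obtain ⟨hv, hd⟩ := h
  refine ⟨ε - |rho q' m - rho q n|, by linarith, fun q'' k hv' hd' => ?_⟩
  rw [pt_mem_ball]
  refine ⟨vis_trans hv hv', ?_⟩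
  have := abs_sub_le (rho q'' k) (rho q' m) (rho q n)
  linarith

lemma isOpen_tail (N : ℕ) : IsOpen (tail N) := by
  rw [isOpen_iff_roy]
  refine ⟨fun q' m h => ?_, fun h => ⟨2 * N, fun q m hm => pt_mem_tail.2 hm⟩⟩
  rw [pt_mem_tail] at h
  refine ⟨1, one_pos, fun q'' k hv' _ => ?_⟩
  rw [pt_mem_tail]
  rcases hv' with rfl | ⟨⟨a, ha⟩, h' | h'⟩ <;> omega

lemma mem_nhds_pt {q : ℚ} {n : ℕ} {s : Set Roy} :
    s ∈ 𝓝 (pt q n) ↔ ∃ k : ℕ, ball q n (1 / ((k : ℝ) + 1)) ⊆ s := by
  constructor
  · intro h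
    obtain ⟨U, hUs, hU, hmem⟩ := mem_nhds_iff.1 h
    obtain ⟨e, he, hsub⟩ := ((isOpen_iff_roy U).1 hU).1 q n hmem
    obtain ⟨k, hk⟩ := exists_nat_one_div_lt he
    refine ⟨k, ?_⟩
    rintro x ⟨q', m, rfl, hv, hd⟩
    exact hUs (hsub q' m hv (lt_trans hd hk))
  · rintro ⟨k, hk⟩
    refine mem_of_superset ((isOpen_ball q n _).mem_nhds ?_) hk
    rw [pt_mem_ball]
    refine ⟨Vis.refl n, ?_⟩
    simp only [sub_self, abs_zero]
    positivity

lemma mem_nhds_inf {s : Set Roy} :
    s ∈ 𝓝 inf ↔ ∃ N : ℕ, tail N ⊆ s := by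
  constructor
  · intro h
    obtain ⟨U, hUs, hU, hmem⟩ := mem_nhds_iff.1 h
    obtain ⟨N, hsub⟩ := ((isOpen_iff_roy U).1 hU).2 hmem
    refine ⟨N, ?_⟩
    rintro x (rfl | ⟨q, m, rfl, hm⟩)
    · exact hUs hmem
    · exact hUs (hsub q m (by omega))
  · rintro ⟨N, hN⟩
    exact mem_of_superset ((isOpen_tail N).mem_nhds inf_mem_tail) hN

instance : FirstCountableTopology Roy := by
  refine ⟨fun x => ?_⟩
  rcases roy_cases x with rfl | ⟨q, n, rfl⟩
  · refine (HasCountableBasis.isCountablyGenerated (p := fun _ : ℕ => True) (s := fun N => tail N)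
      ⟨⟨fun s => ?_⟩, Set.to_countable _⟩)
    rw [mem_nhds_inf]
    simp
  · refine (HasCountableBasis.isCountablyGenerated (p := fun _ : ℕ => True)
      (s := fun k => ball q n (1 / ((k : ℝ) + 1))) ⟨⟨fun s => ?_⟩, Set.to_countable _⟩)
    rw [mem_nhds_pt]
    simp

/-- The closed strip around a real number. -/
def strip (c ε : ℝ) : Set Roy := {x | ∀ q m, x = pt q m → |rho q m - c| ≤ ε}

lemma isClosed_strip (c ε : ℝ) : IsClosed (strip c ε) := by
  rw [← isOpen_compl_iff, isOpen_iff_roy]
  constructor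
  · intro q n h
    have h' : ε < |rho q n - c| := by
      by_contra hcon
      apply h
      intro q' m hq
      obtain ⟨rfl, rfl⟩ := pt_inj hq
      linarith
    refine ⟨|rho q n - c| - ε, by linarith, fun q' m _ hd hmem => ?_⟩
    have h1 := hmem q' m rfl
    have h2 := abs_sub_le (rho q n) (rho q' m) c
    rw [abs_sub_comm (rho q n) (rho q' m)] at h2
    linarith
  · intro h
    exfalso
    apply h
    intro q m hq
    exact absurd hq inf_ne_pt

/-- Levels at most `2 N + 1`. -/
def low (N : ℕ) : Set Roy := {x | ∃ q m, x = pt q m ∧ m ≤ 2 * N + 1}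

lemma isClosed_low (N : ℕ) : IsClosed (low N) := by
  have : low N = (tail (N + 1))ᶜ := by
    ext x
    rcases roy_cases x with rfl | ⟨q, m, rfl⟩
    · constructor
      · rintro ⟨q, m, h, _⟩
        exact absurd h inf_ne_pt
      · intro h
        exact absurd inf_mem_tail h
    · rw [mem_compl_iff, pt_mem_tail]
      constructor
      · rintro ⟨q', m', h, h1⟩
        obtain ⟨rfl, rfl⟩ := pt_inj h
        omega
      · intro h
        exact ⟨q, m, rfl, by omega⟩
  rw [this]
  exact (isOpen_tail _).isClosed_compl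

/-- Levels at least `2 N + 1`, together with the point at infinity. -/
def high (N : ℕ) : Set Roy := {x | ∀ q m, x = pt q m → 2 * N + 1 ≤ m}

lemma isClosed_high (N : ℕ) : IsClosed (high N) := by
  rw [← isOpen_compl_iff, isOpen_iff_roy]
  constructor
  · intro q n h
    have h' : n < 2 * N + 1 := by
      by_contra hcon
      apply h
      intro q' m hq
      obtain ⟨rfl, rfl⟩ := pt_inj hq
      omega
    refine ⟨1, one_pos, fun q' m hv _ hmem => ?_⟩
    have h1 := hmem q' m rfl
    rcases hv with rfl | ⟨⟨a, ha⟩, h' | h'⟩ <;> omega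
  · intro h
    exfalso
    apply h
    intro q m hq
    exact absurd hq inf_ne_pt

lemma disj_pt_pt {q q' : ℚ} {n n' : ℕ} (h : pt q n ≠ pt q' n') :
    ∃ U V : Set Roy, IsOpen U ∧ IsOpen V ∧ pt q n ∈ U ∧
      pt q' n' ∈ V ∧ Disjoint (closure U) (closure V) := by
  have hne : rho q n ≠ rho q' n' := by
    intro h'
    obtain ⟨rfl, rfl⟩ := rho_inj h'
    exact h rfl
  have hpos : 0 < |rho q n - rho q' n'| := abs_pos.2 (sub_ne_zero.2 hne)
  set ε := |rho q n - rho q' n'| / 3 with hε
  have hε0 : 0 < ε := by positivity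
  refine ⟨ball q n ε, ball q' n' ε, isOpen_ball _ _ _, isOpen_ball _ _ _, ?_, ?_, ?_⟩
  · rw [pt_mem_ball]; exact ⟨Vis.refl _, by simpa using hε0⟩
  · rw [pt_mem_ball]; exact ⟨Vis.refl _, by simpa using hε0⟩
  · have h1 : closure (ball q n ε) ⊆ strip (rho q n) ε ∩ low n := by
      apply closure_minimal _ ((isClosed_strip _ _).inter (isClosed_low _))
      rintro x ⟨q'', m, rfl, hv, hd⟩
      refine ⟨fun q3 m3 h3 => ?_, ⟨q'', m, rfl, ?_⟩⟩
      · obtain ⟨rfl, rfl⟩ := pt_inj h3
        exact hd.le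
      · rcases hv with rfl | ⟨_, h' | h'⟩ <;> omega
    have h2 : closure (ball q' n' ε) ⊆ strip (rho q' n') ε ∩ low n' := by
      apply closure_minimal _ ((isClosed_strip _ _).inter (isClosed_low _))
      rintro x ⟨q'', m, rfl, hv, hd⟩
      refine ⟨fun q3 m3 h3 => ?_, ⟨q'', m, rfl, ?_⟩⟩
      · obtain ⟨rfl, rfl⟩ := pt_inj h3
        exact hd.le
      · rcases hv with rfl | ⟨_, h' | h'⟩ <;> omega
    rw [Set.disjoint_left]
    intro x hx hx'
    obtain ⟨hs, ⟨q3, m3, rfl, _⟩⟩ := h1 hx
    obtain ⟨hs', _⟩ := h2 hx'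
    have e1 := hs q3 m3 rfl
    have e2 := hs' q3 m3 rfl
    have e3 := abs_sub_le (rho q n) (rho q3 m3) (rho q' n')
    rw [abs_sub_comm (rho q n) (rho q3 m3)] at e3
    linarith

lemma disj_pt_inf (q : ℚ) (n : ℕ) :
    ∃ U V : Set Roy, IsOpen U ∧ IsOpen V ∧ pt q n ∈ U ∧
      inf ∈ V ∧ Disjoint (closure U) (closure V) := by
  refine ⟨ball q n 1, tail (n + 2), isOpen_ball _ _ _, isOpen_tail _, ?_, inf_mem_tail, ?_⟩
  · rw [pt_mem_ball]; exact ⟨Vis.refl _, by simp⟩
  · have h1 : closure (ball q n 1) ⊆ low n := by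
      apply closure_minimal _ (isClosed_low _)
      rintro x ⟨q'', m, rfl, hv, hd⟩
      refine ⟨q'', m, rfl, ?_⟩
      rcases hv with rfl | ⟨_, h' | h'⟩ <;> omega
    have h2 : closure (tail (n + 2)) ⊆ high (n + 1) := by
      apply closure_minimal _ (isClosed_high _)
      rintro x (rfl | ⟨q'', m, rfl, hm⟩)
      · intro q m hq
        exact absurd hq inf_ne_pt
      · intro q3 m3 h3
        obtain ⟨rfl, rfl⟩ := pt_inj h3
        omega
    rw [Set.disjoint_left]
    intro x hx hx'
    obtain ⟨q3, m3, rfl, h3⟩ := h1 hx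
    have := h2 hx' q3 m3 rfl
    omega

lemma roy_sep (x y : Roy) (h : x ≠ y) : ∃ U V : Set Roy, IsOpen U ∧ IsOpen V ∧ x ∈ U ∧
    y ∈ V ∧ Disjoint (closure U) (closure V) := by
  rcases roy_cases x with rfl | ⟨q, n, rfl⟩ <;> rcases roy_cases y with rfl | ⟨q', n', rfl⟩
  · exact absurd rfl h
  · obtain ⟨U, V, hU, hV, hx, hy, hd⟩ := disj_pt_inf q' n'
    exact ⟨V, U, hV, hU, hy, hx, hd.symm⟩
  · exact disj_pt_inf q n
  · exact disj_pt_pt h

lemma roy_clopen {C : Set Roy} (hC : IsClopen C) (h : inf ∈ C) : C = univ := by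
  obtain ⟨N, hN⟩ := ((isOpen_iff_roy C).1 hC.isOpen).2 h
  have key : ∀ n : ℕ, (∀ q m, n + 1 ≤ m → pt q m ∈ C) →
      ∀ q, pt q n ∈ C := by
    intro n hn q
    rw [← hC.isClosed.closure_eq, mem_closure_iff_nhds]
    intro t ht
    obtain ⟨k, hk⟩ := mem_nhds_pt.1 ht
    have hk0 : (0 : ℝ) < 1 / ((k : ℝ) + 1) := by positivity
    rcases Nat.even_or_odd n with he | ho
    · -- even level: use level n + 1, then come back
      obtain ⟨q1, h1, h2⟩ := rho_dense (n + 1)
        (show rho q n - (1 / ((k : ℝ) + 1)) / 2 < rho q n + (1 / ((k : ℝ) + 1)) / 2 by linarith)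
      obtain ⟨e, he0, hsub⟩ := ((isOpen_iff_roy C).1 hC.isOpen).1 q1 (n + 1) (hn q1 (n + 1) le_rfl)
      set d := min e ((1 / ((k : ℝ) + 1)) / 2) with hd
      have hd0 : 0 < d := lt_min he0 (by linarith)
      obtain ⟨q2, h3, h4⟩ := rho_dense n
        (show rho q1 (n + 1) - d < rho q1 (n + 1) + d by linarith)
      have hd1 : d ≤ e := min_le_left _ _
      have hd2 : d ≤ (1 / ((k : ℝ) + 1)) / 2 := min_le_right _ _
      refine ⟨pt q2 n, hk ?_, ?_⟩
      · rw [pt_mem_ball]
        refine ⟨Vis.refl n, ?_⟩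
        rw [abs_lt]
        constructor <;> linarith
      · apply hsub q2 n
        · exact Or.inr ⟨he.add_one, Or.inr rfl⟩
        · rw [abs_lt]
          constructor <;> linarith
    · -- odd level: level n + 1 is visible
      obtain ⟨q1, h1, h2⟩ := rho_dense (n + 1)
        (show rho q n - (1 / ((k : ℝ) + 1)) < rho q n + (1 / ((k : ℝ) + 1)) by linarith)
      refine ⟨pt q1 (n + 1), hk ?_, hn q1 (n + 1) le_rfl⟩
      rw [pt_mem_ball]
      refine ⟨Or.inr ⟨ho, Or.inl rfl⟩, ?_⟩
      rw [abs_lt]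
      constructor <;> linarith
  have down : ∀ j : ℕ, ∀ q m, N - j ≤ m → pt q m ∈ C := by
    intro j
    induction j with
    | zero => intro q m hm; exact hN q m (by omega)
    | succ j ih =>
      intro q m hm
      by_cases hm' : N - j ≤ m
      · exact ih q m hm'
      · exact key m (fun q' m' h' => ih q' m' (by omega)) q
  ext x
  simp only [mem_univ, iff_true]
  rcases roy_cases x with rfl | ⟨q, n, rfl⟩
  · exact h
  · exact down N q n (by omega)

instance : Nonempty Roy := ⟨inf⟩

instance : PreconnectedSpace Roy := by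
  rw [preconnectedSpace_iff_clopen]
  intro s hs
  by_cases h : inf ∈ s
  · exact Or.inr (roy_clopen hs h)
  · left
    have := roy_clopen hs.compl h
    rwa [compl_univ_iff] at this


section Baire

/-- A copy of `R` carrying the discrete topology. -/
def Disc (R : Type) : Type := R

instance (R : Type) : TopologicalSpace (Disc R) := ⊥
instance (R : Type) : DiscreteTopology (Disc R) := ⟨rfl⟩
instance (R : Type) [Countable R] : Countable (Disc R) := ‹Countable R›

/-- Sequences over `R`, with the product of the discrete topologies. -/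
abbrev Fine (R : Type) : Type := ℕ → Disc R

variable {R : Type} [TopologicalSpace R] [Countable R]

/-- The identity map, from the fine topology to the coarse one. -/
def toCoarse (x : Fine R) : ℕ → R := x

omit [Countable R] in
lemma continuous_toCoarse : Continuous (toCoarse : Fine R → (ℕ → R)) := by
  refine continuous_pi fun i => ?_
  have h1 : Continuous (fun x : Fine R => x i) := continuous_apply i
  have h2 : Continuous (fun y : Disc R => (show R from y)) := continuous_of_discreteTopology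
  exact h2.comp h1

/-- Replace the first `n` coordinates of `x` by `t`. -/
def splice {S : Type} {n : ℕ} (t : Fin n → S) (x : ℕ → S) : ℕ → S :=
  fun i => if h : i < n then t ⟨i, h⟩ else x i

lemma splice_self {S : Type} (n : ℕ) (x : ℕ → S) : splice (fun i : Fin n => x i) x = x := by
  funext i
  unfold splice
  split_ifs <;> rfl

/-- every fine neighbourhood contains a cylinder -/
lemma exists_cyl {S : Type} [TopologicalSpace S] [DiscreteTopology S] {U : Set (ℕ → S)}
    (hU : IsOpen U) {x : ℕ → S} (hx : x ∈ U) :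
    ∃ n : ℕ, ∀ y : ℕ → S, (∀ i < n, y i = x i) → y ∈ U := by
  rw [isOpen_pi_iff] at hU
  obtain ⟨I, u, hu, hsub⟩ := hU x hx
  obtain ⟨n, hn⟩ := I.exists_nat_subset_range
  refine ⟨n, fun y hy => hsub ?_⟩
  intro i hi
  have : i < n := Finset.mem_range.1 (hn hi)
  rw [hy i this]
  exact (hu i hi).2

lemma isOpen_cyl {S : Type} [TopologicalSpace S] [DiscreteTopology S] (x : ℕ → S) (n : ℕ) :
    IsOpen {y : ℕ → S | ∀ i < n, y i = x i} := by
  have : {y : ℕ → S | ∀ i < n, y i = x i} = ⋂ i ∈ Finset.range n, {y : ℕ → S | y i = x i} := by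
    ext y
    simp
  rw [this]
  refine isOpen_biInter_finset fun i _ => ?_
  have : {y : ℕ → S | y i = x i} = (fun y : ℕ → S => y i) ⁻¹' {x i} := by
    ext y; simp
  rw [this]
  exact (isOpen_discrete _).preimage (continuous_apply i)

lemma continuous_splice {S : Type} [TopologicalSpace S] {n : ℕ} (t : Fin n → S) :
    Continuous (splice t : (ℕ → S) → (ℕ → S)) := by
  refine continuous_pi fun i => ?_
  unfold splice
  split_ifs with h
  · exact continuous_const
  · exact continuous_apply i

lemma continuous_splice_left {S : Type} [TopologicalSpace S] {n : ℕ} (x : ℕ → S) :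
    Continuous (fun t : Fin n → S => splice t x) := by
  refine continuous_pi fun i => ?_
  unfold splice
  split_ifs with h
  · exact continuous_apply _
  · exact continuous_const

lemma dense_splice {S : Type} [TopologicalSpace S] [DiscreteTopology S] {U : Set (ℕ → S)}
    (hd : Dense U) {n : ℕ} (t : Fin n → S) : Dense (splice t ⁻¹' U) := by
  rw [dense_iff_inter_open]
  intro V hV ⟨x, hx⟩
  obtain ⟨m, hm⟩ := exists_cyl hV hx
  obtain ⟨y, hy, hyU⟩ := hd.inter_open_nonempty _ (isOpen_cyl (splice t x) (max m n))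
    ⟨splice t x, fun _ _ => rfl⟩
  refine ⟨splice (fun i : Fin n => x i) y, hm _ fun i hi => ?_, ?_⟩
  · unfold splice
    split_ifs with h
    · rfl
    · have := hy i (lt_of_lt_of_le hi (le_max_left _ _))
      rw [this]
      unfold splice
      rw [dif_neg h]
  · have : splice t (splice (fun i : Fin n => x i) y) = y := by
      funext i
      by_cases h : i < n
      · have h' := hy i (lt_of_lt_of_le h (le_max_right _ _))
        rw [h']
        unfold splice
        rw [dif_pos h, dif_pos h]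
      · unfold splice
        rw [dif_neg h, dif_neg h]
    show splice t (splice (fun i : Fin n => x i) y) ∈ U
    rw [this]
    exact hyU

omit [TopologicalSpace R] [Countable R] in
lemma fine_not_meagre_two {D A : Set (Fine R)} [Nontrivial R] (hnm : ¬ IsMeagre D)
    (hA : A ∈ residual (Fine R)) : ∃ x ∈ D ∩ A, ∃ y ∈ D ∩ A, x ≠ y := by
  have h1 : ¬ IsMeagre (D ∩ A) := by
    intro h
    apply hnm
    unfold IsMeagre at *
    filter_upwards [h, hA] with x hx hx' hxD
    exact hx ⟨hxD, hx'⟩
  have h2 : (D ∩ A).Nonempty := by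
    rw [Set.nonempty_iff_ne_empty]
    intro h
    rw [h] at h1
    exact h1 IsMeagre.empty
  obtain ⟨x, hx⟩ := h2
  refine ⟨x, hx, ?_⟩
  by_contra hcon
  push Not at hcon
  apply h1
  have hsub : D ∩ A ⊆ {x} := fun y hy => (hcon y hy).symm
  refine IsMeagre.mono hsub ?_
  unfold IsMeagre
  refine residual_of_dense_open (isOpen_compl_singleton) ?_
  rw [dense_iff_inter_open]
  intro V hV ⟨z, hz⟩
  obtain ⟨m, hm⟩ := exists_cyl hV hz
  obtain ⟨r, hr⟩ : ∃ r : Disc R, r ≠ x m := exists_ne (α := R) (x m)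
  refine ⟨fun i => if i < m then z i else r, hm _ fun i hi => ?_, ?_⟩
  · simp [hi]
  · intro h
    have := congrFun h m
    simp at this
    exact hr this

theorem main_lemma_complete [PreconnectedSpace R] [Nontrivial R] {M : Type*} [MetricSpace M]
    [CompleteSpace M]
    (D : Set (ℕ → R)) (hD : Dense (toCoarse ⁻¹' D)) (hnm : ¬ IsMeagre (toCoarse ⁻¹' D))
    (f : (ℕ → R) → M)
    (hf : ContinuousOn f D) (hinj : InjOn f D) : False := by
  -- coarse density
  have hDc : Dense D := by
    have h1 : Dense (toCoarse '' (toCoarse ⁻¹' D : Set (Fine R))) :=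
      (Function.Surjective.denseRange (f := (toCoarse : Fine R → (ℕ → R))) (fun x => ⟨x, rfl⟩)).dense_image
        continuous_toCoarse hD
    exact h1.mono (image_preimage_subset _ _)
  let O : ℕ → Set (ℕ → R) := fun k =>
    ⋃₀ {U | IsOpen U ∧ ∀ a ∈ U ∩ D, ∀ b ∈ U ∩ D, dist (f a) (f b) < 1 / ((k : ℝ) + 1)}
  have hO : ∀ k, IsOpen (O k) := fun k => isOpen_sUnion fun U hU => hU.1
  have hDO : ∀ k, D ⊆ O k := by
    intro k x hx
    have hk : (0 : ℝ) < 1 / ((k : ℝ) + 1) := by positivity
    have h1 : ∀ᶠ a in 𝓝[D] x, dist (f a) (f x) < (1 / ((k : ℝ) + 1)) / 2 :=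
      (hf x hx).eventually (Metric.ball_mem_nhds _ (by positivity))
    rw [eventually_nhdsWithin_iff, eventually_nhds_iff] at h1
    obtain ⟨U, hU, hUo, hxU⟩ := h1
    refine ⟨U, ⟨hUo, fun a ha b hb => ?_⟩, hxU⟩
    have h2 := hU a ha.1 ha.2
    have h3 := hU b hb.1 hb.2
    calc dist (f a) (f b) ≤ dist (f a) (f x) + dist (f b) (f x) := dist_triangle_right _ _ _
      _ < 1 / ((k : ℝ) + 1) := by linarith
  let G : Set (ℕ → R) := ⋂ k, O k
  have hG : ∀ x ∈ G, ∃ y, Tendsto f (𝓝[D] x) (𝓝 y) := by
    intro x hx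
    have : NeBot (𝓝[D] x) := mem_closure_iff_nhdsWithin_neBot.1 (hDc x)
    have : NeBot (map f (𝓝[D] x)) := inferInstance
    refine cauchy_map_iff_exists_tendsto.1 ?_
    rw [Metric.cauchy_iff]
    refine ⟨inferInstance, fun ε hε => ?_⟩
    obtain ⟨k, hk⟩ := exists_nat_one_div_lt hε
    obtain ⟨U, ⟨hUo, hU⟩, hxU⟩ := mem_iInter.1 hx k
    refine ⟨f '' (U ∩ D), image_mem_map ?_, ?_⟩
    · rw [inter_comm]
      exact inter_mem_nhdsWithin D (hUo.mem_nhds hxU)
    · rintro _ ⟨a, ha, rfl⟩ _ ⟨b, hb, rfl⟩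
      exact lt_trans (hU a ha b hb) hk
  let F := extendFrom D f
  have hF : ContinuousOn F G := continuousOn_extendFrom (fun x _ => hDc x) hG
  have hFD : ∀ x ∈ D, F x = f x := extendFrom_extends hf
  let A : Set (Fine R) := ⋂ t : (Σ n : ℕ, (Fin n → Disc R)), ⋂ k : ℕ,
    splice t.2 ⁻¹' (toCoarse ⁻¹' (O k))
  have hA : A ∈ residual (Fine R) := by
    refine (countable_iInter_mem).2 fun t => (countable_iInter_mem).2 fun k => ?_
    refine residual_of_dense_open ?_ ?_
    · exact ((hO k).preimage continuous_toCoarse).preimage (continuous_splice _)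
    · refine dense_splice ?_ _
      exact hD.mono (preimage_mono (hDO k))
  obtain ⟨x, ⟨hxD, hxA⟩, y, ⟨hyD, hyA⟩, hxy⟩ := fine_not_meagre_two hnm hA
  have hAG : ∀ z ∈ A, ∀ n : ℕ, ∀ t : Fin n → R, splice t (toCoarse z) ∈ G := by
    intro z hz n t
    refine mem_iInter.2 fun k => ?_
    exact mem_iInter.1 (mem_iInter.1 hz ⟨n, t⟩) k
  have hxG : toCoarse x ∈ G := by
    have := hAG x hxA 0 (fun i => toCoarse x i)
    rwa [splice_self] at this
  have hyG : toCoarse y ∈ G := by
    have := hAG y hyA 0 (fun i => toCoarse y i)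
    rwa [splice_self] at this
  have hne : F (toCoarse x) ≠ F (toCoarse y) := by
    intro h
    apply hxy
    have h1 := hFD (toCoarse x) hxD
    have h2 := hFD (toCoarse y) hyD
    exact hinj hxD hyD (h1.symm.trans (h.trans h2))
  obtain ⟨B1, B2, hB1, hB2, hxB, hyB, hdisj⟩ := t2_separation hne
  -- pull back to the coarse topology
  have hy2 : F ⁻¹' B2 ∈ 𝓝[G] (toCoarse y) := hF (toCoarse y) hyG (hB2.mem_nhds hyB)
  rw [mem_nhdsWithin] at hy2
  obtain ⟨V, hVo, hyV, hV⟩ := hy2
  obtain ⟨n, hn⟩ := exists_cyl (hVo.preimage (continuous_toCoarse (R := R))) (x := y) hyV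
  -- the modified point
  have hconst : ∀ t s : Fin n → R, F (splice t (toCoarse x)) = F (splice s (toCoarse x)) := by
    intro t s
    have hcont : Continuous (fun t : Fin n → R => F (splice t (toCoarse x))) := by
      exact hF.comp_continuous (continuous_splice_left (toCoarse x)) (fun t => hAG x hxA n t)
    have hpre : IsPreconnected (range (fun t : Fin n → R => F (splice t (toCoarse x)))) :=
      isPreconnected_range hcont
    have hcount : (range (fun t : Fin n → R => F (splice t (toCoarse x)))).Countable :=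
      countable_range _
    exact hcount.isTotallyDisconnected _ Subset.rfl hpre ⟨t, rfl⟩ ⟨s, rfl⟩
  have h1 : F (splice (fun i : Fin n => toCoarse x i) (toCoarse x)) = F (toCoarse x) := by
    rw [splice_self]
  have h2 : F (splice (fun i : Fin n => toCoarse y i) (toCoarse x)) ∈ B2 := by
    apply hV
    refine ⟨?_, hAG x hxA n _⟩
    apply hn (splice (fun i : Fin n => toCoarse y i) (toCoarse x))
    intro i hi
    unfold splice
    rw [dif_pos hi]
    rfl
  rw [hconst _ (fun i : Fin n => toCoarse x i), h1] at h2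
  exact Set.disjoint_left.1 hdisj hxB h2

theorem main_lemma [PreconnectedSpace R] [Nontrivial R] {M : Type*} [MetricSpace M]
    (D : Set (ℕ → R)) (hD : Dense (toCoarse ⁻¹' D)) (hnm : ¬ IsMeagre (toCoarse ⁻¹' D))
    (f : (ℕ → R) → M)
    (hf : ContinuousOn f D) (hinj : InjOn f D) : False := by
  refine main_lemma_complete D hD hnm (fun x => (f x : UniformSpace.Completion M)) ?_ ?_
  · exact (UniformSpace.Completion.continuous_coe M).comp_continuousOn hf
  · intro a ha b hb hab
    exact hinj ha hb (UniformSpace.Completion.coe_injective M hab)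

/-- Put the finite sequence `s` in front of `z`. -/
def app {S : Type} {n : ℕ} (s : Fin n → S) (z : ℕ → S) : ℕ → S :=
  fun i => if h : i < n then s ⟨i, h⟩ else z (i - n)

/-- Drop the first `n` terms. -/
def drop {S : Type} (n : ℕ) (x : ℕ → S) : ℕ → S := fun i => x (i + n)

lemma drop_app {S : Type} {n : ℕ} (s : Fin n → S) (z : ℕ → S) : drop n (app s z) = z := by
  funext i
  unfold drop app
  rw [dif_neg (by omega)]
  simp

lemma app_drop {S : Type} (n : ℕ) (x : ℕ → S) : app (fun i : Fin n => x i) (drop n x) = x := by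
  funext i
  unfold drop app
  split_ifs with h
  · rfl
  · show x (i - n + n) = x i
    rw [Nat.sub_add_cancel (by omega)]

lemma continuous_app {S : Type} [TopologicalSpace S] {n : ℕ} (s : Fin n → S) :
    Continuous (app s : (ℕ → S) → (ℕ → S)) := by
  refine continuous_pi fun i => ?_
  unfold app
  split_ifs with h
  · exact continuous_const
  · exact continuous_apply _

lemma continuous_drop {S : Type} [TopologicalSpace S] (n : ℕ) :
    Continuous (drop n : (ℕ → S) → (ℕ → S)) :=
  continuous_pi fun i => continuous_apply _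

lemma isInducing_app {S : Type} [TopologicalSpace S] {n : ℕ} (s : Fin n → S) :
    IsInducing (app s : (ℕ → S) → (ℕ → S)) :=
  (Function.LeftInverse.isEmbedding (drop_app s) (continuous_drop n) (continuous_app s)).isInducing

/-- some localisation of a nonmeagre set is dense and nonmeagre -/
lemma localise {S : Type} [TopologicalSpace S] [DiscreteTopology S] [Countable S]
    (D : Set (ℕ → S)) (hnm : ¬ IsMeagre D) : ∃ (n : ℕ) (s : Fin n → S),
    Dense (app s ⁻¹' D) ∧ ¬ IsMeagre (app s ⁻¹' D) := by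
  by_contra hcon
  push Not at hcon
  apply hnm
  have hcover : D ⊆ (closure D \ interior (closure D)) ∪
      ⋃ t ∈ {t : (Σ n : ℕ, (Fin n → S)) | IsMeagre (app t.2 ⁻¹' D)},
        (app t.2 '' (app t.2 ⁻¹' D)) := by
    intro x hx
    by_cases hW : x ∈ interior (closure D)
    · right
      obtain ⟨n, hn⟩ := exists_cyl isOpen_interior hW
      have hdense : Dense (app (fun i : Fin n => x i) ⁻¹' D) := by
        rw [dense_iff_inter_open]
        intro V hV ⟨z, hz⟩
        have h1 : app (fun i : Fin n => x i) z ∈ closure D := by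
          apply interior_subset
          apply hn
          intro i hi
          unfold app
          rw [dif_pos hi]
        rw [mem_closure_iff] at h1
        obtain ⟨w, ⟨hw1, hw2⟩, hwD⟩ := h1 ({y : ℕ → S | ∀ i < n, y i = x i} ∩ drop n ⁻¹' V)
          ((isOpen_cyl x n).inter (hV.preimage (continuous_drop n)))
          ⟨fun _ hi => by unfold app; rw [dif_pos hi], by
            show drop n (app _ z) ∈ V
            rw [drop_app]; exact hz⟩
        refine ⟨drop n w, hw2, ?_⟩
        show app (fun i : Fin n => x i) (drop n w) ∈ D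
        have h3 : (fun i : Fin n => x i) = (fun i : Fin n => w i) := by
          funext i
          exact (hw1 i i.2).symm
        rw [h3, app_drop]
        exact hwD
      refine mem_iUnion₂.2 ⟨⟨n, fun i => x i⟩, hcon n _ hdense, ?_⟩
      refine ⟨drop n x, ?_, app_drop n x⟩
      show app _ (drop n x) ∈ D
      rw [app_drop]
      exact hx
    · exact Or.inl ⟨subset_closure hx, hW⟩
  refine IsMeagre.mono hcover (IsMeagre.union ?_ ?_)
  · apply IsNowhereDense.isMeagre
    have hcl : IsClosed (closure D \ interior (closure D)) :=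
      isClosed_closure.sdiff isOpen_interior
    rw [hcl.isNowhereDense_iff]
    rw [Set.eq_empty_iff_forall_notMem]
    intro x hx
    have h1 : x ∈ closure D \ interior (closure D) := interior_subset hx
    apply h1.2
    exact interior_mono sdiff_subset hx
  · refine isMeagre_biUnion (Set.to_countable _) fun t ht => ?_
    exact (isInducing_app t.2).isMeagre_image ht

/-- A countable product of copies of a countable connected space is not a countable union of
subspaces which inject continuously in metric spaces. -/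
theorem not_sigma [PreconnectedSpace R] [Nontrivial R] {ι : Type*} [Countable ι]
    (D : ι → Set (ℕ → R)) (hcov : ∀ x, ∃ e, x ∈ D e) {M : ι → Type*} [∀ e, MetricSpace (M e)]
    (f : ∀ e, (ℕ → R) → M e) (hf : ∀ e, ContinuousOn (f e) (D e)) (hinj : ∀ e, InjOn (f e) (D e)) :
    False := by
  have h1 : ∃ e, ¬ IsMeagre ((toCoarse : Fine R → (ℕ → R)) ⁻¹' (D e)) := by
    by_contra hcon
    push Not at hcon
    have h2 := isMeagre_iUnion hcon
    have h3 : (⋃ e, (toCoarse : Fine R → (ℕ → R)) ⁻¹' (D e)) = univ := by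
      ext x
      simp only [mem_iUnion, mem_univ, iff_true]
      exact hcov (toCoarse x)
    rw [h3] at h2
    have : Nonempty (Fine R) := ⟨fun _ => Classical.arbitrary (α := R)⟩
    exact not_isMeagre_of_isOpen isOpen_univ univ_nonempty h2
  obtain ⟨e, he⟩ := h1
  obtain ⟨n, s, hd, hm⟩ := localise _ he
  refine main_lemma (app (S := R) s ⁻¹' (D e)) hd hm (fun z => f e (app (S := R) s z)) ?_ ?_
  · exact (hf e).comp (continuous_app (S := R) s).continuousOn (fun z hz => hz)
  · intro a ha b hb hab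
    have h2 : app (S := R) s a = app (S := R) s b := hinj e ha hb hab
    calc a = drop n (app (S := R) s a) := (drop_app (S := R) s a).symm
      _ = drop n (app (S := R) s b) := by rw [h2]
      _ = b := drop_app (S := R) s b

end Baire


/-! ## Enumeration degrees and represented spaces -/

/-- The enumeration operator with axiom set `W`, applied to `A`: the number `k` is enumerated
iff there is an axiom `(k, F)` in `W` whose finite set `F` (given as a list) is contained
in `A`. -/
def enumOp (W : Set (ℕ × List ℕ)) (A : Set ℕ) : Set ℕ :=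
  {k | ∃ F : List ℕ, (k, F) ∈ W ∧ ∀ a ∈ F, a ∈ A}

/-- Enumeration reducibility `A ≤ₑ B`: some recursively enumerable set of axioms enumerates
`A` from `B`. -/
def EnumReducible (A B : Set ℕ) : Prop :=
  ∃ W : Set (ℕ × List ℕ), REPred (fun p : ℕ × List ℕ => p ∈ W) ∧ enumOp W B = A

/-- Enumeration equivalence: having the same enumeration degree. -/
def EnumEquiv (A B : Set ℕ) : Prop := EnumReducible A B ∧ EnumReducible B A

universe u

/-- A represented space: a `T₀` space with an enumeration of a countable open basis. -/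
structure RepSpace : Type (u + 1) where
  /-- the set of points -/
  Point : Type u
  /-- the topology -/
  top : TopologicalSpace Point
  /-- the space is `T₀` -/
  t0 : T0Space Point
  /-- the enumeration of basic open sets -/
  base : ℕ → Set Point
  /-- it enumerates an open basis -/
  isBasis : TopologicalSpace.IsTopologicalBasis (Set.range base)

/-- The set of indices of the basic open sets containing `x`. -/
def nbase (X : RepSpace.{u}) (x : X.Point) : Set ℕ := {e | x ∈ X.base e}

/-- The topology of the space contains a metrizable topology on the same set. -/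
def Submetrizable (Y : RepSpace.{u}) : Prop :=
  ∃ t : TopologicalSpace Y.Point, (∀ U : Set Y.Point, IsOpen[t] U → IsOpen[Y.top] U) ∧
    @TopologicalSpace.MetrizableSpace Y.Point t

/-- The point `x` of `X` is of `Y`-degree: its neighbourhood basis has the same enumeration
degree as the neighbourhood basis of some point of `Y`. -/
def OfDegree (X : RepSpace.{0}) (Y : RepSpace.{u}) (x : X.Point) : Prop :=
  ∃ y : Y.Point, EnumEquiv (nbase X x) (nbase Y y)

/-- the type of recursively enumerable axiom sets -/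
def RESet : Type := {W : Set (ℕ × List ℕ) // REPred (fun p : ℕ × List ℕ => p ∈ W)}

instance : Countable RESet := by
  have h : ∀ W : RESet, ∃ c : Nat.Partrec.Code, ∀ a : ℕ × List ℕ,
      a ∈ W.1 ↔ (c.eval (Encodable.encode a)).Dom := by
    rintro ⟨W, hW⟩
    have h1 : Nat.Partrec fun n => Part.bind (Encodable.decode (α := ℕ × List ℕ) n)
      fun a => (Part.assert (a ∈ W) fun _ => Part.some ()).map Encodable.encode := hW
    obtain ⟨c, hc⟩ := Nat.Partrec.Code.exists_code.1 h1
    refine ⟨c, fun a => ?_⟩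
    rw [hc]
    show a ∈ W ↔ (Part.bind (Encodable.decode (α := ℕ × List ℕ) (Encodable.encode a) :)
      fun a => (Part.assert (a ∈ W) fun _ => Part.some ()).map Encodable.encode).Dom
    rw [Encodable.encodek]
    constructor
    · intro ha
      exact ⟨trivial, ha, trivial⟩
    · rintro ⟨_, ha, _⟩
      exact ha
  choose c hc using h
  have hinj : Function.Injective c := by
    intro W W' h
    apply Subtype.ext
    ext a
    rw [hc W a, hc W' a, h]
  exact hinj.countable

instance : T25Space Roy where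
  t2_5 := by
    intro x y hxy
    obtain ⟨U, V, hU, hV, hx, hy, hd⟩ := roy_sep x y hxy
    refine Filter.disjoint_iff.2 ⟨closure U, ?_, closure V, ?_, hd⟩
    · exact Filter.mem_lift' (hU.mem_nhds hx)
    · exact Filter.mem_lift' (hV.mem_nhds hy)

instance : T25Space (ℕ → Roy) where
  t2_5 := by
    intro x y hxy
    obtain ⟨i, hi⟩ := Function.ne_iff.1 hxy
    obtain ⟨U, V, hU, hV, hx, hy, hd⟩ := roy_sep (x i) (y i) hi
    have hc : Continuous (fun z : ℕ → Roy => z i) := continuous_apply i
    refine Filter.disjoint_iff.2 ⟨closure ((fun z : ℕ → Roy => z i) ⁻¹' U), ?_,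
      closure ((fun z : ℕ → Roy => z i) ⁻¹' V), ?_, ?_⟩
    · exact Filter.mem_lift' ((hU.preimage hc).mem_nhds hx)
    · exact Filter.mem_lift' ((hV.preimage hc).mem_nhds hy)
    · exact (hd.preimage (fun z : ℕ → Roy => z i)).mono (hc.closure_preimage_subset U)
        (hc.closure_preimage_subset V)

instance : Nontrivial Roy := ⟨⟨inf, pt 0 0, inf_ne_pt⟩⟩

lemma exists_base : ∃ b : ℕ → Set (ℕ → Roy),
    TopologicalSpace.IsTopologicalBasis (Set.range b) := by
  obtain ⟨B, hBc, _, hB⟩ := TopologicalSpace.exists_countable_basis (ℕ → Roy)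
  have hne : B.Nonempty := by
    have := hB.sUnion_eq
    by_contra h
    rw [Set.not_nonempty_iff_eq_empty] at h
    rw [h, sUnion_empty] at this
    exact (Set.empty_ne_univ this)
  obtain ⟨b, hb⟩ := hBc.exists_eq_range hne
  exact ⟨b, hb ▸ hB⟩

/-- An enumeration of a countable basis of the space of sequences in Roy's lattice space. -/
noncomputable def seqBase : ℕ → Set (ℕ → Roy) := exists_base.choose

lemma isBasis_seqBase : TopologicalSpace.IsTopologicalBasis (Set.range seqBase) :=
  exists_base.choose_spec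

/-- The space of sequences in Roy's lattice space, as a represented space. -/
noncomputable def RoySeq : RepSpace.{0} where
  Point := ℕ → Roy
  top := inferInstance
  t0 := inferInstance
  base := seqBase
  isBasis := isBasis_seqBase

/-- There is a represented `T₂.₅` space `X` such that for every represented submetrizable
space `Y` some point of `X` is not of `Y`-degree. -/
theorem result : ∃ X : RepSpace.{0}, @T25Space X.Point X.top ∧
    ∀ Y : RepSpace.{u}, Submetrizable Y → ∃ x : X.Point, ¬ OfDegree X Y x := by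
  refine ⟨RoySeq, inferInstanceAs (T25Space (ℕ → Roy)), fun Y hY => ?_⟩
  by_contra hcon
  push Not at hcon
  obtain ⟨t, hle, hmet⟩ := hY
  obtain ⟨y0, _⟩ := hcon (fun _ => inf)
  have hneY : Nonempty Y.Point := ⟨y0⟩
  -- the covering
  let D : RESet × RESet → Set (ℕ → Roy) := fun p =>
    {x | ∃ y : Y.Point, enumOp p.1.1 (nbase RoySeq x) = nbase Y y ∧
      enumOp p.2.1 (nbase Y y) = nbase RoySeq x}
  let f : RESet × RESet → (ℕ → Roy) → Y.Point := fun p x =>
    Classical.epsilon fun y : Y.Point => enumOp p.1.1 (nbase RoySeq x) = nbase Y y ∧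
      enumOp p.2.1 (nbase Y y) = nbase RoySeq x
  have hfD : ∀ p, ∀ x ∈ D p, enumOp p.1.1 (nbase RoySeq x) = nbase Y (f p x) ∧
      enumOp p.2.1 (nbase Y (f p x)) = nbase RoySeq x := by
    intro p x hx
    exact Classical.epsilon_spec hx
  have hcov : ∀ x, ∃ p, x ∈ D p := by
    intro x
    obtain ⟨y, ⟨W, hW, h1⟩, ⟨W', hW', h2⟩⟩ := hcon x
    exact ⟨(⟨W', hW'⟩, ⟨W, hW⟩), y, h2, h1⟩
  let _ : TopologicalSpace Y.Point := t
  let _ : MetricSpace Y.Point := TopologicalSpace.metrizableSpaceMetric Y.Point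
  refine not_sigma (R := Roy) D hcov (M := fun _ => Y.Point) f ?_ ?_
  · intro p
    have h1 : @ContinuousOn (ℕ → Roy) Y.Point _ Y.top (f p) (D p) := by
      intro x hx
      have hb := @TopologicalSpace.IsTopologicalBasis.nhds_hasBasis _ Y.top _ Y.isBasis
        (a := f p x)
      refine hb.tendsto_right_iff.2 ?_
      rintro _ ⟨⟨k, rfl⟩, hk⟩
      have hk' : k ∈ nbase Y (f p x) := hk
      rw [← (hfD p x hx).1] at hk'
      obtain ⟨F, hF, hsub⟩ := hk'
      have hU : IsOpen (⋂ a ∈ F.toFinset, seqBase a) :=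
        isOpen_biInter_finset fun a _ => isBasis_seqBase.isOpen ⟨a, rfl⟩
      have hxU : x ∈ ⋂ a ∈ F.toFinset, seqBase a := by
        rw [mem_iInter₂]
        intro a ha
        exact hsub a (List.mem_toFinset.1 ha)
      rw [eventually_nhdsWithin_iff]
      filter_upwards [hU.mem_nhds hxU] with z hz hzD
      show k ∈ nbase Y (f p z)
      rw [← (hfD p z hzD).1]
      refine ⟨F, hF, fun a ha => ?_⟩
      rw [mem_iInter₂] at hz
      exact hz a (List.mem_toFinset.2 ha)
    have h2 : @Continuous Y.Point Y.Point Y.top t id := by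
      refine @Continuous.mk _ _ Y.top t _ fun U hU => ?_
      exact hle U hU
    exact @Continuous.comp_continuousOn _ _ _ _ Y.top t _ _ _ h2 h1
  · intro p a ha b hb hab
    have h1 := (hfD p a ha).2
    have h2 := (hfD p b hb).2
    have h3 : nbase RoySeq a = nbase RoySeq b := by rw [← h1, ← h2, hab]
    have h4 : Inseparable (a : ℕ → Roy) b := by
      rw [isBasis_seqBase.inseparable_iff]
      rintro _ ⟨k, rfl⟩
      exact Set.ext_iff.1 h3 k
    exact h4.eq

end Pool.Agent.Results.MP_f6a885_lc.UrysohnDegrees
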